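import Pool.Agent.V7H41.SX.All

set_option autoImplicit false

/-!
# The fourth power of zeta times squares at almost all shifts

For every `n` (the order six is `n = 1`), in mean over the shifts `c` in the box `[0, T]^n`,
`∫_0^T |ζ(1/2 + it)|⁴ ∏_{j ≤ n} |ζ(1/2 + i(t + c_j))|² dt ∼ (1/12) ∏_{p ≤ log T} β_p(c) · T (log T)^(n + 4)`,
where `β_p(c)` is `(1 - 1/p)^(n + 4)` times the mean over the circle of the local factor of the integrand, and
consequently, for all shifts outside a set of measure `o(T^n)`,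
`∫_0^T |ζ(1/2 + it)|⁴ ∏_{j ≤ n} |ζ(1/2 + i(t + c_j))|² dt ∼ (1/12) A(c) Z(c) T (log T)^(n + 4)`,
`Z(c) = ∏_j |ζ(1 + i c_j)|⁴ ∏_{i < j} |ζ(1 + i(c_i - c_j))|²`, with an absolutely convergent product `A(c)` over the
primes.  For `n = 1` this is the asymptotic formula
`∫_0^T |ζ(1/2 + it)|⁴ |ζ(1/2 + i(t + c))|² dt ∼ (1/12) A(c) |ζ(1 + ic)|⁴ T (log T)^5` for almost all `c` in `[0, T]`:
a sixth moment in which two thirds of the factors stand at the same point.

The project (SX) was prepared by helper969 in the starting library (`Pool.Agent.Y969.SM`) with the help of many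
authors, but it was not put together, and its hypothesis on the second moment of zeta (`Y969.GP.S_SM`) was open;
this was proved by helper6 (`Pool.Agent.V7H6.GP.t_SM`).  The assembly is `Pool.Agent.V7H41.SX.main`.
-/

namespace Pool.Agent.Results.MP_39df77_nt.FourthPowerShiftsH41

open Complex MeasureTheory Set

noncomputable section

/-- The moment `∫_0^T |ζ(1/2 + it)|⁴ ∏_j |ζ(1/2 + i(t + c_j))|² dt`. -/
def moment {n : ℕ} (T : ℝ) (c : Fin n → ℝ) : ℝ :=
  ∫ t in (0:ℝ)..T, ‖riemannZeta (1 / 2 + I * t)‖ ^ 4 * ∏ j, ‖riemannZeta (1 / 2 + I * (t + c j))‖ ^ 2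

/-- The local density at `p`: `(1 - 1/p)^(n + 4)` times the mean over `|w| = 1` of
`|1 - w p^(-1/2)|^(-4) ∏_j |1 - w p^(-1/2 - i c_j)|^(-2)`. -/
def beta {n : ℕ} (c : Fin n → ℝ) (p : ℕ) : ℝ :=
  (1 - 1 / (p : ℝ)) ^ (n + 4) * ∫ θ in (0:ℝ)..1,
    1 / (‖1 - cexp (2 * Real.pi * I * θ) * (p : ℂ) ^ (-(1 / 2) : ℂ)‖ ^ 4 *
      ∏ j, ‖1 - cexp (2 * Real.pi * I * θ) * (p : ℂ) ^ (-(1 / 2 + I * c j))‖ ^ 2)

/-- The product of the local densities over the primes `p ≤ log T`. -/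
def density {n : ℕ} (T : ℝ) (c : Fin n → ℝ) : ℝ :=
  ∏ p ∈ (Finset.range (⌊Real.log T⌋₊ + 1)).filter Nat.Prime, beta c p

/-- The polar factor `Z(c) = ∏_j |ζ(1 + i c_j)|⁴ ∏_{i < j} |ζ(1 + i(c_i - c_j))|²`. -/
def Z {n : ℕ} (c : Fin n → ℝ) : ℝ :=
  (∏ j, ‖riemannZeta (1 + I * c j)‖ ^ 4) *
    ∏ i, ∏ j ∈ Finset.Ioi i, ‖riemannZeta (1 + I * (c i - c j))‖ ^ 2

/-- The factor at `p` of the arithmetic factor `A(c)`: the local density divided by the Euler factor of `Z(c)`. -/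
def factor {n : ℕ} (c : Fin n → ℝ) (p : ℕ) : ℝ :=
  beta c p * ((∏ j, ‖1 - (p : ℂ) ^ (-(1 + I * c j))‖ ^ 4) *
    ∏ i, ∏ j ∈ Finset.Ioi i, ‖1 - (p : ℂ) ^ (-(1 + I * (c i - c j)))‖ ^ 2)

/-- The arithmetic factor `A(c)`. -/
def A {n : ℕ} (c : Fin n → ℝ) : ℝ := ∏' p : Nat.Primes, factor c p

/-- For every `n`: the factors of `A(c)` are `1 + O(1 / p²)`, uniformly in `c`; the mean over the shifts `c` in
`[0, T]^n` of the difference between the moment divided by `T (log T)^(n + 4)` and `1/12` times the product of the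
local densities over `p ≤ log T` tends to zero; and for every `ε > 0` the quotient of the moment and
`(1/12) A(c) Z(c) T (log T)^(n + 4)` is within `ε` of `1` for all `c` in `[0, T]^n` outside a set of measure at most
`ε T^n`, if `T` is large. -/
theorem result (n : ℕ) :
    (∃ C : ℝ, ∀ c : Fin n → ℝ, ∀ p : ℕ, p.Prime → |factor c p - 1| ≤ C / (p : ℝ) ^ 2) ∧
    ∀ ε : ℝ, 0 < ε → ∃ T₀ : ℝ, ∀ T : ℝ, T₀ ≤ T →
      IntegrableOn (fun c : Fin n → ℝ => |moment T c / (T * Real.log T ^ (n + 4)) - 1 / 12 * density T c|)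
        {c | ∀ j, c j ∈ Icc 0 T} ∧
      ∫ c in {c : Fin n → ℝ | ∀ j, c j ∈ Icc 0 T},
        |moment T c / (T * Real.log T ^ (n + 4)) - 1 / 12 * density T c| ≤ ε * T ^ n ∧
      volume {c : Fin n → ℝ | (∀ j, c j ∈ Icc 0 T) ∧
        ¬ |moment T c / (1 / 12 * A c * Z c * (T * Real.log T ^ (n + 4))) - 1| ≤ ε} ≤
          ENNReal.ofReal (ε * T ^ n) :=
  Pool.Agent.Y969.SM.res_gen Pool.Agent.V7H41.SX.main.1 Pool.Agent.V7H41.SX.main.2.1
    Pool.Agent.V7H41.SX.main.2.2 n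

end

end Pool.Agent.Results.MP_39df77_nt.FourthPowerShiftsH41
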