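import Pool.Agent.V7H6.PU.All

set_option autoImplicit false

/-!
# Shifted moments of zeta of every even order in short intervals, for generic shifts as small as a power of `log T`

For every `k` (the sixth moment is `k = 3`) the moment of order `2k` over `[T, T + H]`
`∫ ∏_j ζ(1/2 + i(t + α_j)) conj ζ(1/2 + i(t + β_j)) dt`
is `H A(α, β) ∏_{j,l} ζ(1 + i(α_j - β_l))` up to an error smaller by a power of `X = HU/T`, the main term of Conrey,
Farmer, Keating, Rubinstein and Snaith, for all shift vectors in `[0, U]^(2k)` outside a set the relative measure of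
which is smaller than one by a power of `X`. All that is needed is `H U ≥ T (log T)^C`: for `H = T` the shifts are
taken from a box of side `(log T)^C`, for `U = T` the interval has length `(log T)^C`. If `U < √T` then a set of
relative measure at most `X^(-δ)` is removed from `[T, T + H]`, namely the `t` at which the mean square of zeta over
`[t, t + U]` is larger than `X^(3δ)`; for `U ≥ √T` no `t` is removed.

The pieces of the proof are from the starting library (project PU of `Pool.Agent.N879` and project GS of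
`Pool.Agent.TH612`), where the theorem was prepared but never put together.
-/

namespace Pool.Agent.Results.MP_39df77_nt.GenericShiftsH6

open Complex MeasureTheory Set

noncomputable section

/-- `ζ(1/2 + iu)` -/
def z (u : ℝ) : ℂ := riemannZeta (1 / 2 + I * u)

/-- The regular points: the `t` in `[T, T + H]` for which the integral of `|ζ(1/2 + iu)|²` over `[t, t + U]` is at most
`U V`. -/
def regular (T H U V : ℝ) : Set ℝ := {t | t ∈ Icc T (T + H) ∧ ∫ u in t..(t + U), ‖z u‖ ^ 2 ≤ U * V}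

/-- The shifted moment of order `2k` over the set `D`, with the shifts `α_j = γ (inl j)` and `β_j = γ (inr j)`. -/
def moment {k : ℕ} (D : Set ℝ) (γ : Fin k ⊕ Fin k → ℝ) : ℂ :=
  ∫ t in D, ∏ j : Fin k, z (t + γ (Sum.inl j)) * (starRingEnd ℂ) (z (t + γ (Sum.inr j)))

/-- The sum of `∏_j n_j ^ (l_j)` over the ordered factorisations `n = n_1 ⋯ n_k`. -/
def sigma {k : ℕ} (l : Fin k → ℂ) (n : ℕ) : ℂ := ∑ f ∈ Nat.finMulAntidiag k n, ∏ j, (f j : ℂ) ^ (l j)

/-- The factor of `A(α, β)` at the prime `p`. -/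
def localFactor {k : ℕ} (γ : Fin k ⊕ Fin k → ℝ) (p : ℕ) : ℂ :=
  (∏ j : Fin k, ∏ l : Fin k, (1 - (p : ℂ) ^ (-(1 + I * (γ (Sum.inl j) : ℂ) - I * (γ (Sum.inr l) : ℂ))))) *
    ∑' m : ℕ, sigma (fun j => I * (γ (Sum.inr j) : ℂ)) (p ^ m) *
      sigma (fun j => -(I * (γ (Sum.inl j) : ℂ))) (p ^ m) * ((p : ℂ) ^ m)⁻¹

/-- The main term `A(α, β) ∏_{j,l} ζ(1 + i(α_j - β_l))`. -/
def mainTerm {k : ℕ} (γ : Fin k ⊕ Fin k → ℝ) : ℂ :=
  (∏' p : Nat.Primes, localFactor γ p) *
    ∏ j : Fin k, ∏ l : Fin k, riemannZeta (1 + I * (γ (Sum.inl j) : ℂ) - I * (γ (Sum.inr l) : ℂ))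

/-- For every `k` there are `δ > 0`, `C₀`, `T₀` such that for all `T ≥ T₀`, `0 < H ≤ T` and `U ≤ T` with
`H U ≥ T (log T)^C₀`, with `X = H U / T`: all `t` in `[T, T + H]` outside a set of measure at most `H X^(-δ)`, and all
of them if `U ≥ √T`, are regular; and the shift vectors `γ = (α, β)` in `[0, U]^(2k)` for which the moment over the
regular points differs from `H A(α, β) ∏_{j,l} ζ(1 + i(α_j - β_l))` by more than `H X^(-δ)` form a set of measure at
most `U^(2k) X^(-δ)`. -/
theorem result (k : ℕ) : ∃ δ C₀ T₀ : ℝ, 0 < δ ∧ ∀ T H U : ℝ, T₀ ≤ T → 0 < H → H ≤ T → U ≤ T →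
    T * Real.log T ^ C₀ ≤ H * U →
    volume (Icc T (T + H) \ regular T H U ((H * U / T) ^ (3 * δ))) ≤ ENNReal.ofReal (H * (H * U / T) ^ (-δ)) ∧
    (T ^ (1 / 2 : ℝ) ≤ U → regular T H U ((H * U / T) ^ (3 * δ)) = Icc T (T + H)) ∧
    volume {γ : Fin k ⊕ Fin k → ℝ | (∀ i, γ i ∈ Icc 0 U) ∧
      H * (H * U / T) ^ (-δ) < ‖moment (regular T H U ((H * U / T) ^ (3 * δ))) γ - H * mainTerm γ‖} ≤
      ENNReal.ofReal (U ^ (2 * k) * (H * U / T) ^ (-δ)) := by
  obtain ⟨δ, C₀, T₀, hδ, h⟩ := Pool.Agent.V7H6.PU.main k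
  refine ⟨δ, C₀, T₀, hδ, fun T H U hT hH hHT hUT hHU => ?_⟩
  obtain ⟨h1, h2, h3⟩ := h T H U hT hH hHT hUT hHU
  obtain ⟨X, hX⟩ : ∃ X, X = (H * U / T) ^ (3 * δ) := ⟨_, rfl⟩
  rw [← hX] at h1 h2 h3 ⊢
  have er : regular T H U X = Pool.Agent.N879.PU.Gu U X ∩ Icc T (T + H) := by
    ext t
    constructor
    · intro ht
      exact ⟨ht.2, ht.1⟩
    · intro ht
      exact ⟨ht.2, ht.1⟩
  refine ⟨?_, ?_, ?_⟩
  · refine le_trans (le_of_eq ?_) h1
    congr 1
    ext t
    rw [er]
    simp only [mem_sdiff, mem_inter_iff]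
    tauto
  · intro hU
    rw [er]
    exact inter_eq_right.2 (h2 hU)
  · have hbox : MeasurableSet (Set.univ.pi fun _ : Fin k ⊕ Fin k => Icc (0 : ℝ) U) :=
      MeasurableSet.univ_pi fun _ => measurableSet_Icc
    have e1 : Pool.Agent.TH612.GS.mP (Fin k ⊕ Fin k) U =
        (volume : Measure (Fin k ⊕ Fin k → ℝ)).restrict (Set.univ.pi fun _ => Icc (0 : ℝ) U) := by
      unfold Pool.Agent.TH612.GS.mP
      rw [← Measure.restrict_pi_pi]
      rfl
    rw [e1, Measure.restrict_apply' hbox] at h3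
    refine le_trans (le_of_eq ?_) h3
    congr 1
    ext γ
    have e2 : moment (regular T H U X) γ =
        ∫ t in Pool.Agent.N879.PU.Gu U X ∩ Icc T (T + H), ∏ i, Pool.Agent.N879.PU.fs Pool.Agent.TH612.GS.z i (t + γ i) := by
      unfold moment
      rw [er]
      refine integral_congr_ae (Filter.Eventually.of_forall fun t => ?_)
      simp only
      rw [Pool.Agent.N879.PU.fs_prod]
      rfl
    have e3 : mainTerm γ = Pool.Agent.TH612.GS.zr γ := rfl
    simp only [mem_ofPred_eq, mem_inter_iff, mem_univ_pi, e2, e3]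
    tauto

end

end Pool.Agent.Results.MP_39df77_nt.GenericShiftsH6
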