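import Pool.Agent.V7H6.PZ.All

set_option autoImplicit false

/-!
# Moments of the sixth and of every higher even order of zeta with generic shifts as small as a power of `log T`

For every `n` (the sixth moment is `n = 2`)
`∫ |ζ(1/2 + it)|² ∏_{j ≤ n} |ζ(1/2 + i(t + c_j))|² dt ~ A(c) ∏_j |ζ(1 + ic_j)|² ∏_{i<j} |ζ(1 + i(c_i - c_j))|² T (log T)^(n+1)`
over the `t ≤ T` outside a set of measure at most `T / (log T)^B`, for all but a small proportion of the shifts `c` in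
`[0, U]^n`, uniformly for `(log T)^C₀ ≤ U ≤ T^(1/4)`. The removed `t` are those for which the mean of `|ζ|⁴` over
`[t, t + U]` is larger than `(log T)^B₀`.

The pieces of the proof, one excepted (`Pool.Agent.V7H6.PZ.t_LED`), are from the starting library (project PZ of
`Pool.Agent.N879`), where the theorem was prepared but not finished.
-/

namespace Pool.Agent.Results.MP_39df77_nt.ShiftsPowerOfLogH6

open Complex MeasureTheory Set Filter

noncomputable section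

/-- `|ζ(1/2 + iu)|²` -/
def zz (u : ℝ) : ℝ := ‖riemannZeta (1 / 2 + I * u)‖ ^ 2

/-- The regular points: the `t` in `[0, T]` for which the integral of `|ζ(1/2 + iu)|⁴` over `[t, t + U]` is at most
`U W`. -/
def regular (T U W : ℝ) : Set ℝ := {t | t ∈ Icc 0 T ∧ ∫ u in t..(t + U), zz u ^ 2 ≤ U * W}

/-- The moment of order `2(n+1)` with the shifts `0, c_1, …, c_n` over the regular points. -/
def moment {n : ℕ} (T U W : ℝ) (c : Fin n → ℝ) : ℝ := ∫ t in regular T U W, zz t * ∏ j, zz (t + c j)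

/-- The local factor
`(1 - 1/p)^(n+1) ∫_0^1 |1 - e(θ) p^(-1/2)|^(-2) ∏_j |1 - e(θ) p^(-1/2 - ic_j)|^(-2) dθ · |1 - p^(-1-ic_j)|² ⋯`,
`e(θ) = exp(2πiθ)`: the mean over the circle times the inverses of the Euler factors at `p` of the zeta factors of the
main term. -/
def localFactor {n : ℕ} (c : Fin n → ℝ) (p : ℕ) : ℝ :=
  ((1 - 1 / (p : ℝ)) ^ (n + 1) * ∫ θ in (0:ℝ)..1,
    1 / (‖1 - cexp (2 * Real.pi * I * θ) * (p : ℂ) ^ (-(1 / 2) : ℂ)‖ ^ 2 *
      ∏ j, ‖1 - cexp (2 * Real.pi * I * θ) * (p : ℂ) ^ (-(1 / 2 + I * c j))‖ ^ 2)) *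
  ((∏ j, ‖1 - (p : ℂ) ^ (-(1 + I * c j))‖ ^ 2) *
    ∏ i, ∏ j ∈ Finset.Ioi i, ‖1 - (p : ℂ) ^ (-(1 + I * (c i - c j)))‖ ^ 2)

/-- The main term `A(c) ∏_j |ζ(1 + ic_j)|² ∏_{i<j} |ζ(1 + i(c_i - c_j))|² T (log T)^(n+1)`, `A(c)` the product of the
local factors. -/
def mainTerm {n : ℕ} (T : ℝ) (c : Fin n → ℝ) : ℝ :=
  ((∏ j, ‖riemannZeta (1 + I * c j)‖ ^ 2) * ∏ i, ∏ j ∈ Finset.Ioi i, ‖riemannZeta (1 + I * (c i - c j))‖ ^ 2) *
    (∏' p : Nat.Primes, localFactor c p) * (T * Real.log T ^ (n + 1))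

/-- For all `n` and `B` there are `C₀` and `B₀` such that for every `ε > 0`, all large `T` and all `U` with
`(log T)^C₀ ≤ U ≤ T^(1/4)`: all `t` in `[0, T]` outside a set of measure at most `T / (log T)^B` are regular, and the
shifts `c` in `[0, U]^n` for which the quotient of the moment over the regular points and the main term differs from
`1` by more than `ε` form a set of measure at most `ε U^n`. -/
theorem result (n B : ℕ) : ∃ C₀ B₀ : ℕ, ∀ ε : ℝ, 0 < ε → ∀ᶠ T : ℝ in atTop, ∀ U : ℝ,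
    Real.log T ^ C₀ ≤ U → U ≤ T ^ (1 / 4 : ℝ) →
    volume (Icc 0 T \ regular T U (Real.log T ^ B₀)) ≤ ENNReal.ofReal (T / Real.log T ^ B) ∧
    volume {c : Fin n → ℝ | (∀ j, c j ∈ Icc 0 U) ∧
      ¬ |moment T U (Real.log T ^ B₀) c / mainTerm T c - 1| ≤ ε} ≤ ENNReal.ofReal (ε * U ^ n) := by
  obtain ⟨C₀, B₀, h⟩ := Pool.Agent.V7H6.PZ.main n B
  refine ⟨C₀, B₀, fun ε hε => ?_⟩
  filter_upwards [h ε hε] with T hT U hU1 hU2
  obtain ⟨h1, h2⟩ := hT U hU1 hU2
  have er : ∀ W : ℝ, regular T U W = Pool.Agent.N879.PZ.Gs U W ∩ Icc 0 T := by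
    intro W
    ext t
    constructor
    · intro ht
      exact ⟨ht.2, ht.1⟩
    · intro ht
      exact ⟨ht.2, ht.1⟩
  refine ⟨?_, ?_⟩
  · refine le_trans (le_of_eq ?_) h1
    congr 1
    ext t
    rw [er]
    simp only [Set.mem_sdiff, Set.mem_inter_iff]
    tauto
  · refine le_trans (le_of_eq ?_) h2
    congr 1
    ext c
    have e1 : moment T U (Real.log T ^ B₀) c = Pool.Agent.N879.PZ.MG T U (Real.log T ^ B₀) c := by
      unfold moment Pool.Agent.N879.PZ.MG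
      rw [er]
      rfl
    have e2 : mainTerm T c = Pool.Agent.N879.PZ.zp1 c * Pool.Agent.N879.PZ.AA1 c * (T * Real.log T ^ (n + 1)) := rfl
    simp only [Set.mem_ofPred_eq, Set.mem_Icc, e1, e2]

end

end Pool.Agent.Results.MP_39df77_nt.ShiftsPowerOfLogH6
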