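import Pool.Agent.V7H6.GP.All

set_option autoImplicit false

/-!
# The sixth and all higher even moments of zeta with an error of the size of the square root, for almost all shifts

For every `n` (the sixth moment is `n = 2`) and every `ε > 0`
`∫_0^S |ζ(1/2 + it)|² ∏_{j ≤ n} |ζ(1/2 + i(t + c_j))|² dt = ∫_0^S density c t dt + O(T^(1/2 + ε))`, `S ≤ T`,
for all shifts `c` in `[0, T]^n` outside a set of measure at most `T^(n - δ)`. The density is the main term of the
recipe of Conrey, Farmer, Keating, Rubinstein and Snaith with all its lower order terms (without the terms which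
oscillate for these shifts): a residue at `w = 0` in `n + 1` variables. The size `T^(1/2 + ε)` of the error is the one
they conjecture. For `n = 0` the density is `log (t / 2π) + 2γ`.

The pieces of the proof, except the second moments of zeta on the critical line and to the right of it
(`Pool.Agent.V7H6.GP.t_SM`, `Pool.Agent.V7H6.GP.t_ZL`), are from the starting library (project GP of
`Pool.Agent.Y969`), where the theorem was prepared but not finished.
-/

namespace Pool.Agent.Results.MP_39df77_nt.SquareRootErrorH6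

open Complex MeasureTheory Set

noncomputable section

/-- The shifts `0, c_1, …, c_n`. -/
def sh {n : ℕ} (c : Fin n → ℝ) : Fin (n + 1) → ℝ := Fin.cons 0 c

/-- The sum of `∏_j n_j ^ (l_j)` over the ordered factorisations `n = n_1 ⋯ n_k`. -/
def sigma {k : ℕ} (l : Fin k → ℂ) (n : ℕ) : ℂ := ∑ f ∈ Nat.finMulAntidiag k n, ∏ j, (f j : ℂ) ^ (l j)

/-- The Euler product `A(u, v) = ∏_p ∏_{j,l} (1 - p^(-1-u_j-v_l)) ∑_m sigma(-u)(p^m) sigma(-v)(p^m) p^(-m)`. -/
def arith {k : ℕ} (u v : Fin k → ℂ) : ℂ :=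
  ∏' p : Nat.Primes, (∏ j : Fin k, ∏ l : Fin k, (1 - ((p : ℕ) : ℂ) ^ (-(1 + u j + v l)))) *
    ∑' m : ℕ, sigma (fun j => -v j) ((p : ℕ) ^ m) * sigma (fun j => -u j) ((p : ℕ) ^ m) * (((p : ℕ) : ℂ) ^ m)⁻¹

/-- The density of the moment at `t`: the integral over the torus `|w_j| = 1/8` of
`(2πi)^(-n-1) A(w + ic, w - ic) ∏_{j,l} ζ(1 + w_j + w_l + i(c_j - c_l)) ∏_j (2 / w_j) ((t + c_j) / 2π)^(w_j)`, `c_0 = 0`. -/
def density {n : ℕ} (c : Fin n → ℝ) (t : ℝ) : ℂ :=
  ((2 * Real.pi * I) ^ (n + 1))⁻¹ * torusIntegral (fun w : Fin (n + 1) → ℂ =>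
    arith (fun j => w j + I * (sh c j : ℂ)) (fun j => w j - I * (sh c j : ℂ)) *
      (∏ j, ∏ l, riemannZeta (1 + w j + w l + I * (sh c j - sh c l))) *
      ∏ j, (2 / w j * cexp (w j * (Real.log ((t + sh c j) / (2 * Real.pi)) : ℝ))))
    (fun _ => 0) (fun _ => 1 / 8)

lemma density_eq {n : ℕ} (c : Fin n → ℝ) (t : ℝ) : density c t = Pool.Agent.Y969.GP.RR c t := by
  unfold density Pool.Agent.Y969.GP.RR
  congr 2
  funext w
  congr 2
  unfold arith Pool.Agent.TH612.CF.FH
  refine tprod_congr fun p => ?_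
  unfold Pool.Agent.TH612.CF.lh Pool.Agent.TH612.CF.lt Pool.Agent.Y969.GP.av Pool.Agent.Y969.GP.bv
  have e1 : ∀ x y x' y' : ℂ, 1 + (y + I * x) + (y' - I * x') = 1 + I * (x - I * y) - I * (x' + I * y') := by
    intro x y x' y'
    linear_combination (y + y') * Complex.I_sq
  have e2 : ∀ x y : ℂ, -(y - I * x) = I * (x + I * y) := by
    intro x y
    linear_combination (-y) * Complex.I_sq
  have e3 : ∀ x y : ℂ, -(y + I * x) = -(I * (x - I * y)) := by
    intro x y
    linear_combination (-y) * Complex.I_sq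
  simp only [e1, e2, e3]
  rfl

/-- For all `n` and `ε > 0` there are `δ > 0` and `T₀` such that for all `T ≥ T₀` and `0 ≤ S ≤ T` the shifts `c` in
`[0, T]^n` for which `∫_0^S ∏_{j=0}^n |ζ(1/2 + i(t + c_j))|² dt` (with `c_0 = 0`) differs from `∫_0^S density c t dt` by
more than `T^(1/2 + ε)` form a set of measure at most `T^(n - δ)`. -/
theorem result (n : ℕ) (ε : ℝ) (hε : 0 < ε) : ∃ δ T₀ : ℝ, 0 < δ ∧ ∀ T S : ℝ, T₀ ≤ T → 0 ≤ S → S ≤ T →
    volume {c : Fin n → ℝ | (∀ j, c j ∈ Icc 0 T) ∧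
      T ^ (1 / 2 + ε) < ‖((∫ t in (0:ℝ)..S, ∏ j, ‖riemannZeta (1 / 2 + I * ((t + sh c j : ℝ) : ℂ))‖ ^ 2 : ℝ) : ℂ) -
        ∫ t in (0:ℝ)..S, density c t‖} ≤ ENNReal.ofReal (T ^ ((n : ℝ) - δ)) := by
  obtain ⟨δ, T₀, hδ, h⟩ := Pool.Agent.V7H6.GP.main n ε hε
  refine ⟨δ, T₀, hδ, fun T S hT hS hST => ?_⟩
  refine le_trans (le_of_eq ?_) (h T S hT hS hST)
  congr 1
  ext c
  simp only [mem_ofPred_eq, density_eq]
  rfl

end

end Pool.Agent.Results.MP_39df77_nt.SquareRootErrorH6
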